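import Pool.Agent.H29.ICA.Pot
import Pool.Agent.H29.IC.HSM

/-!
# Analytic insulating cracks, module CON: without crack the solutions are the explicit potentials
-/

open MeasureTheory Set Filter Topology Metric
open scoped ENNReal NNReal ContDiff RealInnerProductSpace

namespace Pool.Agent.H29.ICA

open Pool.Agent.H94.IC Pool.Agent.H94.AC Pool.Agent.H29.IC

/-- the trace formula without support condition, no crack -/
theorem tr_smooth {Ω : Set E} {σ : Measure E} {ν : E → E} (hb : Bornology.IsBounded Ω)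
    (hΩ : MeasurableSet Ω) (h : IsSurf Ω σ ν) {u : E → ℝ} {F : E → E} {τ : E → ℝ} (hu : HS1 Ω ∅ σ ν u F τ)
    {X : E → E} (hX : ContDiff ℝ ∞ X) :
    ∫ x in Ω, (u x * dv X x + ⟪F x, X x⟫) = ∫ x, τ x * ⟪X x, ν x⟫ ∂σ := by
  obtain ⟨R, hR, hsub⟩ := Pool.Agent.H73.IC.frontier_bdd hb
  let χ : ContDiffBump (0 : E) := ⟨R, R + 1, hR, by linarith⟩
  have hev : ∀ x ∈ closure Ω, (fun y => χ y • X y) =ᶠ[𝓝 x] X := by
    intro x hx
    filter_upwards [isOpen_ball.mem_nhds (hsub hx)] with y hy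
    have : χ y = 1 := χ.one_of_mem_closedBall (ball_subset_closedBall hy)
    rw [this, one_smul]
  have hcs : HasCompactSupport fun y => χ y • X y := χ.hasCompactSupport.smul_right
  have key := hu.tr (fun y => χ y • X y) (χ.contDiff.smul hX) hcs (disjoint_empty _)
  have e1 : ∫ x in Ω, (u x * dv (fun y => χ y • X y) x + ⟪F x, χ x • X x⟫)
      = ∫ x in Ω, (u x * dv X x + ⟪F x, X x⟫) := by
    apply setIntegral_congr_fun hΩ
    intro x hx
    have h1 := Pool.Agent.H73.IC.dv_congr (hev x (subset_closure hx))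
    have h2 := (hev x (subset_closure hx)).self_of_nhds
    simp only at h2 ⊢
    rw [h1, h2]
  have e2 : ∫ x, τ x * ⟪χ x • X x, ν x⟫ ∂σ = ∫ x, τ x * ⟪X x, ν x⟫ ∂σ := by
    apply integral_congr_ae
    filter_upwards [Pool.Agent.H73.IC.ae_frontier h] with x hx
    have := (hev x (frontier_subset_closure hx)).self_of_nhds
    simp only at this
    rw [this]
  rw [← e1, ← e2]
  exact key

theorem int_inner {μ : Measure E} {F G : E → E} (hF : MemLp F 2 μ) (hG : MemLp G 2 μ) :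
    Integrable (fun x => ⟪F x, G x⟫) μ := by
  have h1 : Integrable (fun x => ‖F x‖ * ‖G x‖) μ := hF.norm.integrable_mul hG.norm
  exact h1.mono' (hF.aestronglyMeasurable.inner hG.aestronglyMeasurable) (ae_of_all _ fun x => norm_inner_le_norm _ _)

theorem con : T_CON := by
  intro Ω S σ ν h τ i hΩ hσ hS hSΩ hS0 hH hSol h0
  have hfin := finite_restrict hΩ.bdd
  have hp : ∀ Z : Set E, IsCompact Z → Z ⊆ Ω → HS1 Ω Z σ ν (pot i) (gr (pot i)) (pot i) := fun Z hZ hZΩ =>
    (hsm Ω Z σ ν hΩ.op hΩ.bdd hσ hZ hZΩ).2.2.2.1 (pot i) (smooth_pot i)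
  have hd : ∀ Z : Set E, IsCompact Z → Z ⊆ Ω → HS1 Ω Z σ ν h (gr h) τ →
      HS1 Ω Z σ ν (fun x => h x + (-1) * pot i x) (fun x => gr h x + (-1 : ℝ) • gr (pot i) x)
        (fun x => τ x + (-1) * pot i x) := fun Z hZ hZΩ hh =>
    hs_add hΩ.bdd hσ hh (hs_smul (-1) (hp Z hZ hZΩ))
  have k1 := hSol.weak _ _ _ (hd S hS hSΩ hSol.h)
  have k2 := tr_smooth hΩ.bdd hΩ.op.measurableSet hσ (hd ∅ isCompact_empty (empty_subset _) h0)
    (smooth_gr_pot i)
  simp only [dv_gr_pot, mul_zero, zero_add, inner_gr_pot] at k2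
  have e1 : ∀ x, (τ x + (-1) * pot i x) * prof2 ν i x = prof2 ν i x * (τ x + (-1) * pot i x) := fun x =>
    mul_comm _ _
  simp_rw [e1] at k2
  rw [← k2] at k1
  have i1 : Integrable (fun x => ⟪gr h x, gr h x + (-1 : ℝ) • gr (pot i) x⟫) (volume.restrict Ω) :=
    int_inner hSol.h.F2 (hd S hS hSΩ hSol.h).F2
  have i2 : Integrable (fun x => ⟪gr h x + (-1 : ℝ) • gr (pot i) x, gr (pot i) x⟫) (volume.restrict Ω) :=
    int_inner (hd S hS hSΩ hSol.h).F2 (hp S hS hSΩ).F2
  have e2 : ∀ x, ‖gr h x + (-1 : ℝ) • gr (pot i) x‖ ^ 2 = ⟪gr h x, gr h x + (-1 : ℝ) • gr (pot i) x⟫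
      - ⟪gr h x + (-1 : ℝ) • gr (pot i) x, gr (pot i) x⟫ := by
    intro x
    rw [← real_inner_self_eq_norm_sq, real_inner_comm (gr (pot i) x), ← inner_sub_left]
    congr 1
    module
  have k3 : ∫ x in Ω, ‖gr h x + (-1 : ℝ) • gr (pot i) x‖ ^ 2 = 0 := by
    simp_rw [e2]
    rw [integral_sub i1 i2, k1, sub_self]
  have k4 : (fun x => ‖gr h x + (-1 : ℝ) • gr (pot i) x‖ ^ 2) =ᵐ[volume.restrict Ω] 0 := by
    refine (integral_eq_zero_iff_of_nonneg (fun x => sq_nonneg _) ?_).mp k3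
    refine (i1.sub i2).congr (ae_of_all _ fun x => ?_)
    rw [Pi.sub_apply]
    exact (e2 x).symm
  have ho : IsOpen (Ω \ S) := hΩ.op.sdiff hS.isClosed
  have k5 : gr h =ᵐ[volume.restrict (Ω \ S)] gr (pot i) := by
    have : ∀ᵐ x ∂(volume.restrict Ω), gr h x = gr (pot i) x := by
      filter_upwards [k4] with x hx
      have h1 : ‖gr h x + (-1 : ℝ) • gr (pot i) x‖ = 0 := by simpa using hx
      have h2 := norm_eq_zero.mp h1
      rw [neg_one_smul, ← sub_eq_add_neg, sub_eq_zero] at h2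
      exact h2
    exact ae_restrict_of_ae_restrict_of_subset sdiff_subset this
  have hc : ContinuousOn (gr h) (Ω \ S) := by
    intro x hx
    have h1 : ContDiffAt ℝ ((0 : ℕ∞) + 1) h x := ((hH.1.contDiffAt (ho.mem_nhds hx)).of_le (by norm_cast))
    exact (contDiffAt_gr h1).continuousAt.continuousWithinAt
  exact Measure.eqOn_open_of_ae_eq k5 ho hc (smooth_gr_pot i).continuous.continuousOn

end Pool.Agent.H29.ICA
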