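import Mathlib
import Pool.Agent.H94.AC.Targets

/-!
# Analytic insulating cracks, module MUO: multiplication operators on square integrable fields
-/

open MeasureTheory Set Filter Topology Metric
open scoped ENNReal NNReal ContDiff RealInnerProductSpace

namespace Pool.Agent.H29.ICA

open Pool.Agent.H94.IC Pool.Agent.H94.AC

theorem mu_meas (K : Set E) [CompactSpace K] (f : C(K, E →L[ℝ] E)) (u : Lp E 2 (mu K)) :
    AEStronglyMeasurable (fun x => f x (u x)) (mu K) :=
  ContinuousLinearMap.aestronglyMeasurable_comp₂ (ContinuousLinearMap.id ℝ (E →L[ℝ] E))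
    f.continuous.aestronglyMeasurable (Lp.aestronglyMeasurable u)

theorem mu_bound (K : Set E) [CompactSpace K] (f : C(K, E →L[ℝ] E)) (u : Lp E 2 (mu K)) (x : K) :
    ‖f x (u x)‖ ≤ ‖f‖ * ‖u x‖ :=
  ((f x).le_opNorm (u x)).trans (mul_le_mul_of_nonneg_right (f.norm_coe_le_norm x) (norm_nonneg _))

theorem mu_mem (K : Set E) [CompactSpace K] (f : C(K, E →L[ℝ] E)) (u : Lp E 2 (mu K)) :
    MemLp (fun x => f x (u x)) 2 (mu K) :=
  (Lp.memLp u).of_le_mul (mu_meas K f u) (ae_of_all _ (mu_bound K f u))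

/-- the bilinear map -/
noncomputable def muB (K : Set E) [CompactSpace K] :
    C(K, E →L[ℝ] E) →ₗ[ℝ] Lp E 2 (mu K) →ₗ[ℝ] Lp E 2 (mu K) :=
  LinearMap.mk₂ ℝ (fun f u => (mu_mem K f u).toLp _)
    (fun f g u => by
      apply Lp.ext
      filter_upwards [(mu_mem K (f + g) u).coeFn_toLp, (mu_mem K f u).coeFn_toLp, (mu_mem K g u).coeFn_toLp,
        Lp.coeFn_add ((mu_mem K f u).toLp _) ((mu_mem K g u).toLp _)] with x h1 h2 h3 h4
      rw [h1, h4, Pi.add_apply, h2, h3]
      simp)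
    (fun c f u => by
      apply Lp.ext
      filter_upwards [(mu_mem K (c • f) u).coeFn_toLp, (mu_mem K f u).coeFn_toLp,
        Lp.coeFn_smul c ((mu_mem K f u).toLp _)] with x h1 h2 h4
      rw [h1, h4, Pi.smul_apply, h2]
      simp)
    (fun f u v => by
      apply Lp.ext
      filter_upwards [(mu_mem K f (u + v)).coeFn_toLp, (mu_mem K f u).coeFn_toLp, (mu_mem K f v).coeFn_toLp,
        Lp.coeFn_add ((mu_mem K f u).toLp _) ((mu_mem K f v).toLp _), Lp.coeFn_add u v] with x h1 h2 h3 h4 h5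
      rw [h1, h4, Pi.add_apply, h2, h3, h5, Pi.add_apply, map_add])
    (fun c f u => by
      apply Lp.ext
      filter_upwards [(mu_mem K f (c • u)).coeFn_toLp, (mu_mem K f u).coeFn_toLp,
        Lp.coeFn_smul c ((mu_mem K f u).toLp _), Lp.coeFn_smul c u] with x h1 h2 h4 h5
      rw [h1, h4, Pi.smul_apply, h2, h5, Pi.smul_apply, map_smul])

theorem muB_coe (K : Set E) [CompactSpace K] (f : C(K, E →L[ℝ] E)) (u : Lp E 2 (mu K)) :
    (muB K f u : K → E) =ᵐ[mu K] fun x => f x (u x) := (mu_mem K f u).coeFn_toLp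

theorem muB_norm (K : Set E) [CompactSpace K] (f : C(K, E →L[ℝ] E)) (u : Lp E 2 (mu K)) :
    ‖muB K f u‖ ≤ ‖f‖ * ‖u‖ := by
  apply Lp.norm_le_mul_norm_of_ae_le_mul
  filter_upwards [muB_coe K f u] with x h1
  rw [h1]
  exact mu_bound K f u x

theorem muB_norm' (K : Set E) [CompactSpace K] (f : C(K, E →L[ℝ] E)) (u : Lp E 2 (mu K)) :
    ‖muB K f u‖ ≤ 1 * ‖f‖ * ‖u‖ := by
  rw [one_mul]
  exact muB_norm K f u

/-- the multiplication map -/
noncomputable def muT (K : Set E) [CompactSpace K] :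
    C(K, E →L[ℝ] E) →L[ℝ] (Lp E 2 (mu K) →L[ℝ] Lp E 2 (mu K)) :=
  @LinearMap.mkContinuous₂ ℝ ℝ ℝ C(K, E →L[ℝ] E) (Lp E 2 (mu K)) (Lp E 2 (mu K)) inferInstance inferInstance
    inferInstance inferInstance inferInstance inferInstance inferInstance inferInstance inferInstance
    (RingHom.id ℝ) (RingHom.id ℝ) inferInstance (muB K) 1 (muB_norm' K)

theorem muo : T_MUO := by
  intro K _
  refine ⟨muT K, fun f u => ?_, fun f => ?_⟩
  · exact muB_coe K f u
  · refine ContinuousLinearMap.opNorm_le_bound _ (norm_nonneg f) (fun u => ?_)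
    exact muB_norm K f u

end Pool.Agent.H29.ICA
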