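import Pool.Agent.H29.ICA.Pot

/-!
# Analytic insulating cracks, module PRT: the two profiles are admissible
-/

open MeasureTheory Set Filter Topology Metric
open scoped ENNReal NNReal ContDiff RealInnerProductSpace

namespace Pool.Agent.H29.ICA

open Pool.Agent.H94.IC Pool.Agent.H94.AC Pool.Agent.H29.IC Pool.Agent.H73.IC

theorem prt : T_PRT := by
  intro Ω σ ν hΩ h i
  have hfin := h.fin
  obtain ⟨R, hR, hsub⟩ := frontier_bdd hΩ.bdd
  have hcont : ContinuousOn (fun x => gr (pot i) x) (closedBall (0 : E) R) :=
    (smooth_gr_pot i).continuous.continuousOn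
  obtain ⟨M, hM⟩ := (isCompact_closedBall (0 : E) R).exists_bound_of_continuousOn hcont
  constructor
  · refine MemLp.of_bound (meas_gr_pot i h.meas) M ?_
    filter_upwards [ae_frontier h, h.unit] with x hx hu
    rw [← inner_gr_pot]
    calc ‖⟪gr (pot i) x, ν x⟫‖ ≤ ‖gr (pot i) x‖ * ‖ν x‖ := norm_inner_le_norm _ _
      _ ≤ M := by
        rw [hu, mul_one]
        exact hM x (ball_subset_closedBall (hsub (frontier_subset_closure hx)))
  · have g := gauss_green hΩ.bdd hΩ.op.measurableSet h (X := gr (pot i))
      ((smooth_gr_pot i).of_le (by norm_cast))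
    simp only [dv_gr_pot, integral_zero, inner_gr_pot] at g
    exact g.symm

end Pool.Agent.H29.ICA
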