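import Mathlib
import Pool.Agent.H94.AC.Targets
import Pool.Agent.H73.IC.PRO

/-!
# Analytic insulating cracks: the explicit potentials (helper29, MP_0ee698_an)
-/

open MeasureTheory Set Filter Topology Metric
open scoped ENNReal NNReal ContDiff RealInnerProductSpace

namespace Pool.Agent.H29.ICA

open Pool.Agent.H94.IC Pool.Agent.H94.AC Pool.Agent.H29.IC Pool.Agent.H73.IC

theorem smooth_coord (k : Fin 3) : ContDiff ℝ ∞ (fun x : E => x k) :=
  (EuclideanSpace.proj k : E →L[ℝ] ℝ).contDiff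

theorem pd_coord (k j : Fin 3) (x : E) : pd k (fun y : E => y j) x = if j = k then 1 else 0 := by
  unfold pd
  have h1 : HasFDerivAt (fun y : E => y j) (EuclideanSpace.proj j : E →L[ℝ] ℝ) x :=
    (EuclideanSpace.proj j : E →L[ℝ] ℝ).hasFDerivAt
  rw [h1.fderiv]
  simp

theorem smooth_pot (i : Fin 2) : ContDiff ℝ ∞ (pot i) := by
  fin_cases i
  · exact smooth_coord 0
  · exact ((smooth_coord 0).mul (smooth_coord 1)).add (smooth_coord 2)

theorem pd_pot0 (k : Fin 3) (x : E) : pd k (pot 0) x = if 0 = k then 1 else 0 := pd_coord k 0 x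

theorem pd_pot1 (k : Fin 3) (x : E) : pd k (pot 1) x = (if 0 = k then x 1 else 0) + (if 1 = k then x 0 else 0)
    + (if 2 = k then 1 else 0) := by
  unfold pd
  have h0 : HasFDerivAt (fun y : E => y 0) (EuclideanSpace.proj 0 : E →L[ℝ] ℝ) x :=
    (EuclideanSpace.proj (0 : Fin 3) : E →L[ℝ] ℝ).hasFDerivAt
  have h1 : HasFDerivAt (fun y : E => y 1) (EuclideanSpace.proj 1 : E →L[ℝ] ℝ) x :=
    (EuclideanSpace.proj (1 : Fin 3) : E →L[ℝ] ℝ).hasFDerivAt
  have h2 : HasFDerivAt (fun y : E => y 2) (EuclideanSpace.proj 2 : E →L[ℝ] ℝ) x :=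
    (EuclideanSpace.proj (2 : Fin 3) : E →L[ℝ] ℝ).hasFDerivAt
  have h : HasFDerivAt (pot 1) _ x := (h0.mul h1).add h2
  rw [h.fderiv]
  fin_cases k <;> simp

/-- the gradient of the first potential -/
theorem gr_pot0 (x : E) : gr (pot 0) x = ev 0 := by
  ext k
  rw [gr_apply, pd_pot0]
  fin_cases k <;> simp

theorem gr_pot1_0 (x : E) : gr (pot 1) x 0 = x 1 := by
  rw [gr_apply, pd_pot1]
  simp

theorem gr_pot1_1 (x : E) : gr (pot 1) x 1 = x 0 := by
  rw [gr_apply, pd_pot1]
  simp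

theorem gr_pot1_2 (x : E) : gr (pot 1) x 2 = 1 := by
  rw [gr_apply, pd_pot1]
  simp

/-- the profiles are the normal components of the gradients -/
theorem inner_gr_pot (i : Fin 2) (ν : E → E) (x : E) : ⟪gr (pot i) x, ν x⟫ = prof2 ν i x := by
  fin_cases i
  · show ⟪gr (pot 0) x, ν x⟫ = (ν x) 0
    rw [gr_pot0, EuclideanSpace.inner_single_left]
    simp
  · show ⟪gr (pot 1) x, ν x⟫ = x 1 * (ν x) 0 + x 0 * (ν x) 1 + (ν x) 2
    rw [inner_E, Fin.sum_univ_three, gr_pot1_0, gr_pot1_1, gr_pot1_2]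
    ring

/-- the potentials are harmonic -/
theorem dv_gr_pot (i : Fin 2) (x : E) : dv (gr (pot i)) x = 0 := by
  have hs : ContDiffAt ℝ 2 (pot i) x := ((smooth_pot i).of_le (by norm_cast)).contDiffAt
  rw [dv_gr hs]
  apply Finset.sum_eq_zero
  intro k _
  fin_cases i
  · have : pd k (pot 0) = fun _ => if 0 = k then (1 : ℝ) else 0 := funext (pd_pot0 k)
    show pd k (pd k (pot 0)) x = 0
    rw [this]
    unfold pd
    simp
  · have : pd k (pot 1) = fun x => (if 0 = k then x 1 else 0) + (if 1 = k then x 0 else 0)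
      + (if 2 = k then 1 else 0) := funext (pd_pot1 k)
    show pd k (pd k (pot 1)) x = 0
    rw [this]
    fin_cases k
    · simpa using pd_coord 0 1 x
    · simpa using pd_coord 1 0 x
    · unfold pd
      simp

theorem smooth_gr_pot (i : Fin 2) : ContDiff ℝ ∞ (gr (pot i)) := contDiff_gr (smooth_pot i)

theorem meas_gr_pot {σ : Measure E} {ν : E → E} (i : Fin 2) (h : AEStronglyMeasurable ν σ) :
    AEStronglyMeasurable (prof2 ν i) σ := by
  have h1 : AEStronglyMeasurable (fun x => ⟪gr (pot i) x, ν x⟫) σ :=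
    (smooth_gr_pot i).continuous.aestronglyMeasurable.inner h
  simpa only [inner_gr_pot] using h1

end Pool.Agent.H29.ICA
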