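import Mathlib
import Pool.Agent.H94.AC.Targets

/-!
# Analytic insulating cracks, module TBC: volume of the tubes around the edge
-/

open MeasureTheory Set Filter Topology Metric
open scoped ENNReal NNReal ContDiff RealInnerProductSpace

namespace Pool.Agent.H29.ICA

open Pool.Agent.H94.IC Pool.Agent.H94.AC

/-- the tubes around `A` have volume `O(r^2)` -/
def TV (A : Set E) : Prop := ∃ C : ℝ, 0 ≤ C ∧ ∀ r ∈ Ioc (0 : ℝ) 1, volume (thickening r A) ≤ ENNReal.ofReal (C * r ^ 2)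

theorem TV.mono {A B : Set E} (h : A ⊆ B) (hB : TV B) : TV A := by
  obtain ⟨C, hC0, hC⟩ := hB
  exact ⟨C, hC0, fun r hr => (measure_mono (thickening_subset_of_subset r h)).trans (hC r hr)⟩

theorem TV.union {A B : Set E} (hA : TV A) (hB : TV B) : TV (A ∪ B) := by
  obtain ⟨C, hC0, hC⟩ := hA
  obtain ⟨D, hD0, hD⟩ := hB
  refine ⟨C + D, by positivity, fun r hr => ?_⟩
  rw [thickening_union]
  refine (measure_union_le _ _).trans ((add_le_add (hC r hr) (hD r hr)).trans ?_)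
  rw [← ENNReal.ofReal_add (by positivity) (by positivity), add_mul]

/-- tubes around Lipschitz curves -/
theorem TV.curve (c : ℝ → E) (e K : ℝ) (he : 0 < e) (hK0 : 0 ≤ K)
    (hlip : ∀ s ∈ Icc (-e) e, ∀ t ∈ Icc (-e) e, ‖c t - c s‖ ≤ K * ‖t - s‖) : TV (c '' Icc (-e) e) := by
  set A : ℝ := 2 * e * K + 1 with hA
  have hA0 : 0 < A := by positivity
  refine ⟨4 * Real.pi * A ^ 3, by positivity, fun r hr => ?_⟩
  obtain ⟨hr0, hr1⟩ := hr
  set N : ℕ := ⌈1 / r⌉₊ with hN
  have hN1 : 1 / r ≤ N := Nat.le_ceil _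
  have hN0 : (0 : ℝ) < N := lt_of_lt_of_le (by positivity) hN1
  have hN2 : (N : ℝ) < 1 / r + 1 := Nat.ceil_lt_add_one (by positivity)
  have hNr : 1 / (N : ℝ) ≤ r := by
    rw [div_le_iff₀ hN0]
    rw [div_le_iff₀ hr0] at hN1
    linarith
  have hcov : thickening r (c '' Icc (-e) e) ⊆
      ⋃ i ∈ Finset.range (N + 1), ball (c (-e + 2 * e * i / N)) (A * r) := by
    intro x hx
    rw [mem_thickening_iff] at hx
    obtain ⟨z, ⟨t, ht, rfl⟩, hxz⟩ := hx
    have hu0 : 0 ≤ (t + e) * N / (2 * e) := by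
      have := ht.1
      have h : 0 ≤ t + e := by linarith
      positivity
    set i : ℕ := ⌊(t + e) * N / (2 * e)⌋₊ with hi
    have hi1 : (i : ℝ) ≤ (t + e) * N / (2 * e) := Nat.floor_le hu0
    have hi2 : (t + e) * N / (2 * e) < i + 1 := Nat.lt_floor_add_one _
    rw [le_div_iff₀ (by positivity)] at hi1
    rw [div_lt_iff₀ (by positivity)] at hi2
    have hiN : (i : ℝ) ≤ N := by
      have h1 : (t + e) * N ≤ (2 * e) * N := by
        refine mul_le_mul_of_nonneg_right ?_ hN0.le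
        linarith [ht.2]
      have h2 : (i : ℝ) * (2 * e) ≤ N * (2 * e) := by linarith
      exact le_of_mul_le_mul_right h2 (by positivity)
    have hiN' : i ≤ N := by exact_mod_cast hiN
    refine mem_iUnion₂.mpr ⟨i, Finset.mem_range.mpr (Nat.lt_succ_of_le hiN'), ?_⟩
    set s : ℝ := -e + 2 * e * i / N with hs
    have hs1 : s ≤ t := by
      have h : 2 * e * i / N ≤ t + e := by
        rw [div_le_iff₀ hN0]
        linarith
      rw [hs]
      linarith
    have hs0 : -e ≤ s := by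
      have : 0 ≤ 2 * e * i / N := by positivity
      rw [hs]
      linarith
    have hs2 : t - s ≤ 2 * e * r := by
      have h : t + e ≤ 2 * e * i / N + 2 * e * (1 / N) := by
        have e' : 2 * e * i / N + 2 * e * (1 / (N : ℝ)) = ((i + 1) * (2 * e)) / N := by
          field_simp
        rw [e', le_div_iff₀ hN0]
        linarith
      have h2 : 2 * e * (1 / N) ≤ 2 * e * r :=
        mul_le_mul_of_nonneg_left hNr (by positivity)
      rw [hs]
      linarith
    have hl := hlip s ⟨hs0, hs1.trans ht.2⟩ t ht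
    have hl2 : dist (c t) (c s) ≤ K * (2 * e * r) := by
      rw [dist_eq_norm]
      refine hl.trans (mul_le_mul_of_nonneg_left ?_ hK0)
      rw [Real.norm_eq_abs, abs_of_nonneg (by linarith)]
      exact hs2
    rw [mem_ball]
    calc dist x (c s) ≤ dist x (c t) + dist (c t) (c s) := dist_triangle _ _ _
      _ < r + K * (2 * e * r) := add_lt_add_of_lt_of_le hxz hl2
      _ = A * r := by
        rw [hA]
        ring
  refine (measure_mono hcov).trans ?_
  refine (measure_biUnion_finset_le _ _).trans ?_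
  have hb : ∀ x : E, volume (ball x (A * r)) = ENNReal.ofReal ((A * r) ^ 3 * (Real.pi * 4 / 3)) := by
    intro x
    rw [EuclideanSpace.volume_ball_fin_three, ← ENNReal.ofReal_pow (by positivity),
      ← ENNReal.ofReal_mul (by positivity)]
  simp only [hb, Finset.sum_const, Finset.card_range, nsmul_eq_mul]
  have hcast : ((N + 1 : ℕ) : ℝ≥0∞) = ENNReal.ofReal ((N + 1 : ℕ) : ℝ) := by
    rw [ENNReal.ofReal_natCast]
  rw [hcast, ← ENNReal.ofReal_mul (by positivity)]
  refine ENNReal.ofReal_le_ofReal ?_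
  have h3 : ((N + 1 : ℕ) : ℝ) * r ≤ 3 := by
    push_cast
    have h4 : (N : ℝ) * r < (1 / r + 1) * r := mul_lt_mul_of_pos_right hN2 hr0
    have h5 : (1 / r + 1) * r = 1 + r := by
      field_simp
    nlinarith
  calc ((N + 1 : ℕ) : ℝ) * ((A * r) ^ 3 * (Real.pi * 4 / 3))
      = (((N + 1 : ℕ) : ℝ) * r) * (A ^ 3 * r ^ 2 * (Real.pi * 4 / 3)) := by ring
    _ ≤ 3 * (A ^ 3 * r ^ 2 * (Real.pi * 4 / 3)) := mul_le_mul_of_nonneg_right h3 (by positivity)
    _ = 4 * Real.pi * A ^ 3 * r ^ 2 := by ring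

/-- in an edge chart the points with positive first coordinate are interior points -/
theorem int_of_pos {S : Set E} (Ψ : OpenPartialHomeomorph E E) (h1 : ContDiffOn ℝ ∞ Ψ Ψ.source)
    (h2 : ContDiffOn ℝ ∞ Ψ.symm Ψ.target) (h : ∀ x ∈ Ψ.source, x ∈ S ↔ ((Ψ x) 2 = 0 ∧ (True → 0 ≤ (Ψ x) 0)))
    {q : E} (hq : q ∈ Ψ.source) (hq2 : (Ψ q) 2 = 0) (hq0 : 0 < (Ψ q) 0) : FlatChart S q False := by
  have hV : IsOpen {z : E | 0 < z 0} :=
    isOpen_lt continuous_const (PiLp.continuous_apply 2 (fun _ : Fin 3 => ℝ) 0)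
  refine ⟨(Ψ.trans (OpenPartialHomeomorph.ofSet _ hV)).transHomeomorph (Homeomorph.addRight (-(Ψ q))), ?_, ?_,
    ?_, ?_, ?_⟩
  · simp only [OpenPartialHomeomorph.transHomeomorph_source, OpenPartialHomeomorph.trans_source,
      OpenPartialHomeomorph.ofSet_source]
    exact ⟨hq, hq0⟩
  · simp
  · have e1 : ContDiffOn ℝ ∞ (fun x => Ψ x + -(Ψ q)) Ψ.source := h1.add contDiffOn_const
    refine (e1.mono ?_).congr (fun x hx => ?_)
    · intro x hx
      simp only [OpenPartialHomeomorph.transHomeomorph_source, OpenPartialHomeomorph.trans_source,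
        OpenPartialHomeomorph.ofSet_source] at hx
      exact hx.1
    · simp
  · have e1 : ContDiffOn ℝ ∞ (fun z => Ψ.symm (z + Ψ q)) {z | z + Ψ q ∈ Ψ.target} :=
      h2.comp (contDiffOn_id.add contDiffOn_const) (fun z hz => hz)
    have hsym : ∀ z, (Homeomorph.addRight (-(Ψ q))).symm z = z + Ψ q := fun z => by
      show z + -(-(Ψ q)) = _
      rw [neg_neg]
    refine (e1.mono ?_).congr (fun x hx => ?_)
    · intro z hz
      simp at hz
      have h3 := hz.2
      rw [hsym] at h3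
      exact h3
    · simp [hsym]
  · intro x hx
    simp only [OpenPartialHomeomorph.transHomeomorph_source, OpenPartialHomeomorph.trans_source,
      OpenPartialHomeomorph.ofSet_source] at hx
    rw [h x hx.1]
    have h3 : 0 < (Ψ x) 0 := hx.2
    simp [hq2, h3.le]

theorem tbc (hDSJ : T_DSJ) (hEDC : T_EDC) : T_TBC := by
  intro Ω S hS
  obtain ⟨hcpt, -, -, -, -⟩ := hEDC Ω S hS
  suffices h : TV (edgePts S) by
    obtain ⟨C, -, hC⟩ := h
    exact ⟨C, hC⟩
  refine hcpt.induction_on (p := TV) ⟨0, le_rfl, fun r _ => by simp⟩ (fun A B h hB => hB.mono h)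
    (fun A B hA hB => hA.union hB) ?_
  intro p hp
  obtain ⟨hpS, Ψ, hps, hp0, hs1, hs2, hch⟩ := hp
  have h0t : (0 : E) ∈ Ψ.target := hp0 ▸ Ψ.map_source hps
  obtain ⟨e, he, heb⟩ := Metric.nhds_basis_closedBall.mem_iff.mp (Ψ.open_target.mem_nhds h0t)
  have hUo : Ψ.source ∩ Ψ ⁻¹' (ball 0 e) ∈ 𝓝 p :=
    (Ψ.isOpen_inter_preimage isOpen_ball).mem_nhds ⟨hps, by rw [mem_preimage, hp0]; exact mem_ball_self he⟩
  refine ⟨edgePts S ∩ (Ψ.source ∩ Ψ ⁻¹' (ball 0 e)), inter_mem self_mem_nhdsWithin (mem_nhdsWithin_of_mem_nhds hUo), ?_⟩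
  -- the curve
  let ℓ : ℝ → E := fun t => t • ev 1
  have hℓn : ∀ t, ‖ℓ t‖ = |t| := fun t => by simp [ℓ, norm_smul]
  have hℓ : ContDiff ℝ ∞ ℓ := contDiff_id.smul contDiff_const
  have hmem : ∀ t ∈ Icc (-e) e, ℓ t ∈ Ψ.target := fun t ht => heb (by
    rw [mem_closedBall_zero_iff, hℓn]
    exact abs_le.mpr ht)
  have hda : ∀ t ∈ Icc (-e) e, ContDiffAt ℝ ∞ (fun t => Ψ.symm (ℓ t)) t := fun t ht =>
    (hs2.contDiffAt (Ψ.open_target.mem_nhds (hmem t ht))).comp t hℓ.contDiffAt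
  have hdc : ContinuousOn (fun t => deriv (fun t => Ψ.symm (ℓ t)) t) (Icc (-e) e) := by
    intro t ht
    have h1 : ContDiffAt ℝ 1 (fun t => Ψ.symm (ℓ t)) t := (hda t ht).of_le (by norm_cast)
    have h2 : ContinuousAt (fun t => fderiv ℝ (fun t => Ψ.symm (ℓ t)) t) t :=
      h1.continuousAt_fderiv (by norm_num)
    have h3 : ContinuousAt (fun t => fderiv ℝ (fun t => Ψ.symm (ℓ t)) t 1) t :=
      h2.clm_apply continuousAt_const
    have h4 : (fun t => fderiv ℝ (fun t => Ψ.symm (ℓ t)) t 1) = fun t => deriv (fun t => Ψ.symm (ℓ t)) t := by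
      funext s
      exact fderiv_apply_one_eq_deriv
    rw [h4] at h3
    exact h3.continuousWithinAt
  obtain ⟨K, hK⟩ := (isCompact_Icc (a := -e) (b := e)).exists_bound_of_continuousOn hdc
  have hK0 : 0 ≤ K := (norm_nonneg _).trans (hK 0 ⟨by linarith, by linarith⟩)
  have hcurve := TV.curve (fun t => Ψ.symm (ℓ t)) e K he hK0 (fun s hs t ht =>
    Convex.norm_image_sub_le_of_norm_deriv_le (fun x hx => (hda x hx).differentiableAt (by simp)) hK
      (convex_Icc _ _) hs ht)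
  refine hcurve.mono ?_
  rintro q ⟨⟨hqS, hqT⟩, hqs, hqb⟩
  have hq := (hch q hqs).mp hqS
  have hq0 : (Ψ q) 0 = 0 := by
    refine le_antisymm ?_ (hq.2 trivial)
    by_contra hneg
    push Not at hneg
    exact hDSJ S q ⟨int_of_pos Ψ hs1 hs2 hch hqs hq.1 hneg, hqT⟩
  have hqℓ : ℓ ((Ψ q) 1) = Ψ q := by
    ext k
    fin_cases k
    · simp [ℓ, hq0]
    · simp [ℓ]
    · simp [ℓ, hq.1]
  refine ⟨(Ψ q) 1, ?_, ?_⟩
  · rw [mem_Icc, ← abs_le, ← hℓn, hqℓ]
    have := hqb
    rw [mem_preimage, mem_ball_zero_iff] at this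
    exact this.le
  · show Ψ.symm (ℓ ((Ψ q) 1)) = q
    rw [hqℓ]
    exact Ψ.left_inv hqs

end Pool.Agent.H29.ICA
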